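import Pool.Agent.H926R3.Br.Main

/-!
# Cyclic sliding need not lower the complexity of an essential reduction curve

In `B 5`, with `σ₁, …, σ₄` the Artin generators and `D = σ₁ σ₂ σ₁`, the braid
`x₀ = σ₂² D⁴ σ₁ σ₄⁷ σ₂⁻²` is reducible, its left normal form is
`Dσ₄ . Dσ₄ . σ₂σ₄ . σ₂σ₁σ₄ . σ₁σ₂σ₄ . σ₂σ₁σ₄ . σ₄`, the curve `c₀ = C₁₂ * σ₂⁻²` (where `C₁₂` is the
round curve around the punctures `1, 2`) is an essential reduction curve of `x₀` of complexity `2`,
the preferred prefix of `x₀` and of `x₁ = D⁻¹ x₀ D` is `D`, and `D²` commutes with `x₀` and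
preserves `c₀`.  So the sliding orbit alternates between `(x₀, c₀)` and `(x₁, c₀ * D)`, and both
curves have complexity `2`.
-/

set_option autoImplicit false

namespace Pool.Agent.Results.MP_45b0de_al.NeverDrops

open Pool.Agent.H926R3.Br

/-- There are a reducible braid on five strands and an essential reduction curve of it, of
complexity `2`, whose complexity never drops under iterated cyclic sliding. -/
theorem result :
    ∃ (x q : ℕ → B 5) (c : ℕ → Cls 5),
      IsReducible (x 0) ∧
      (∀ k, IsPreferredPrefix (x k) (q k) ∧ x (k + 1) = (q k)⁻¹ * x k * q k ∧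
        c (k + 1) = act (c k) (q k)) ∧
      (∀ k, IsEssential (x k) (c k)) ∧
      ∀ k, complexity (c k) = 2 :=
  ⟨xs, fun _ => D, cs, reducible, fun k => ⟨xs_pp k, xs_succ k, cs_succ k⟩, cs_ess, cs_cx⟩

end Pool.Agent.Results.MP_45b0de_al.NeverDrops
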